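import Pool.Agent.H88.KTH.CHO
import Pool.Agent.H45.KTH.VEC
import Pool.Agent.H12.KTH.Stmts

/-!
# KTH, row CHD: the chords of a configuration
-/

set_option autoImplicit false

namespace Pool.KTH

open Finset Real
open Pool.Agent.H49.Ent Pool.Agent.H32.Dense
open Pool.Agent.H24.KTH (dsv lvv lev cap Yf kp LevOne LevPlus LevZero sz Pt)

variable {d J : ℕ}

lemma chd_sz_eq (J : ℕ) (z : ℝ) :
    sz (2 ^ J) z = Real.log (1 + |z| / 2 ^ J) + Real.log (1 + 2 ^ J / max 1 |z|) := by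
  unfold sz
  push_cast
  rw [max_comm]

lemma chd_sz_nonneg (M : ℕ) (z : ℝ) : 0 ≤ sz M z := by
  unfold sz
  have i1 : 0 ≤ |z| / (M : ℝ) := by positivity
  have i2 : 0 ≤ (M : ℝ) / max |z| 1 := by positivity
  exact add_nonneg (Real.log_nonneg (by linarith)) (Real.log_nonneg (by linarith))

lemma chd_gp_nonneg (J : ℕ) (x y : ℤ) : 0 ≤ gp J x y := by
  unfold gp
  apply Real.log_nonneg
  have : (0 : ℝ) ≤ 2 ^ J / max 1 |(x : ℝ) - y| := by positivity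
  linarith

lemma chd_eg_nonneg (F : Cf d J) (x y : F.Ω → ℤ) : 0 ≤ F.eg x y :=
  Ex_nonneg F.hq fun _ _ => chd_gp_nonneg _ _ _

lemma chd_sz_gap {J : ℕ} {x y : ℤ} {z : ℝ} (hx : 0 ≤ x ∧ x < ((2 ^ J : ℕ) : ℤ))
    (hy : 0 ≤ y ∧ y < ((2 ^ J : ℕ) : ℤ)) (hz : z = (x : ℝ) - y) : sz (2 ^ J) z ≤ 1 + gp J x y := by
  have hx1 : (0 : ℝ) ≤ x := by exact_mod_cast hx.1
  have hx2 : (x : ℝ) < 2 ^ J := by exact_mod_cast hx.2
  have hy1 : (0 : ℝ) ≤ y := by exact_mod_cast hy.1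
  have hy2 : (y : ℝ) < 2 ^ J := by exact_mod_cast hy.2
  have hJ : (0 : ℝ) < 2 ^ J := by positivity
  rw [chd_sz_eq, hz]
  have h1 : |(x : ℝ) - y| / 2 ^ J ≤ 1 := by
    rw [div_le_one hJ]
    exact abs_le.mpr ⟨by linarith, by linarith⟩
  have h0 : 0 ≤ |(x : ℝ) - y| / 2 ^ J := by positivity
  have h2 : Real.log (1 + |(x : ℝ) - y| / 2 ^ J) ≤ Real.log 2 := by
    apply Real.log_le_log (by linarith)
    linarith
  have h3 := log_two_le_one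
  unfold gp
  linarith

lemma chd_sz_add {J : ℕ} {x y : ℤ} {c z : ℝ} (hx : 0 ≤ x ∧ x < ((2 ^ J : ℕ) : ℤ))
    (hy : 0 ≤ y ∧ y < ((2 ^ J : ℕ) : ℤ)) (hz : z = (x : ℝ) + c - y) :
    sz (2 ^ J) z ≤ 1 + Real.log (1 + |c| / 2 ^ J) + Real.log (1 + 2 ^ J / max 1 |z|) := by
  have hx1 : (0 : ℝ) ≤ x := by exact_mod_cast hx.1
  have hx2 : (x : ℝ) < 2 ^ J := by exact_mod_cast hx.2
  have hy1 : (0 : ℝ) ≤ y := by exact_mod_cast hy.1
  have hy2 : (y : ℝ) < 2 ^ J := by exact_mod_cast hy.2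
  have hJ : (0 : ℝ) < 2 ^ J := by positivity
  rw [chd_sz_eq]
  have h0 : 0 ≤ |c| / 2 ^ J := by positivity
  have h1 : |z| / 2 ^ J ≤ 1 + |c| / 2 ^ J := by
    rw [div_le_iff₀ hJ, add_mul, one_mul, div_mul_cancel₀ _ hJ.ne', hz]
    have e1 : (x : ℝ) + c - y = ((x : ℝ) - y) + c := by ring
    rw [e1]
    refine (abs_add_le _ _).trans ?_
    have : |(x : ℝ) - y| ≤ 2 ^ J := abs_le.mpr ⟨by linarith, by linarith⟩
    linarith
  have hz0 : 0 ≤ |z| / 2 ^ J := by positivity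
  have h2 : Real.log (1 + |z| / 2 ^ J) ≤ Real.log 2 + Real.log (1 + |c| / 2 ^ J) := by
    rw [← Real.log_mul (by norm_num) (by positivity)]
    apply Real.log_le_log (by positivity)
    linarith
  have h3 := log_two_le_one
  linarith

lemma chd_floor (y : ℝ) : |((⌊y⌋ : ℤ) : ℝ) - y| ≤ 1 := by
  have r1 := Int.floor_le y
  have r2 := Int.lt_floor_add_one y
  exact abs_le.mpr ⟨by linarith, by linarith⟩

/-- The point `B` of the line 1 seen from the line 0. -/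
lemma chd_ptB (F : Cf d J) : Pt (2 ^ J) F.q F.Z F.v₀ F.u₀ F.v₁ F.t (fun w => F.r w - F.t w)
    (fun w => rd (pos (2 ^ J) (F.u₁ w) (F.v₁ w) (F.r w))) := by
  refine ⟨⟨by positivity, F.hq, F.h1, F.hv₀, F.hu₀, F.ht⟩, F.hv₁, ?_⟩
  intro w hw k
  have h1 := rd_close (F.cross01 w hw) k
  have h2 := chd_floor (pos (2 ^ J) (F.u₁ w) (F.v₁ w) (F.r w) k)
  have e1 : rd (pos (2 ^ J) (F.u₁ w) (F.v₁ w) (F.r w)) k =
    ⌊pos (2 ^ J) (F.u₁ w) (F.v₁ w) (F.r w) k⌋ := rfl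
  rw [e1]
  have e2 : pos (2 ^ J) (F.u₁ w) (F.v₁ w) (F.r w) k =
      pos (2 ^ J) (F.u₁ w) (F.v₁ w) (F.t w) k +
        (((F.r w - F.t w : ℤ) : ℝ)) / ((2 ^ J : ℕ) : ℝ) * F.v₁ w k := by
    unfold pos
    push_cast
    ring
  have t1 := abs_le.mp h1
  have t2 := abs_le.mp h2
  rw [abs_le]
  constructor <;> linarith [t1.1, t1.2, t2.1, t2.2]

/-- The point `O` seen from the line 0. -/
lemma chd_ptO (F : Cf d J) : Pt (2 ^ J) F.q F.Z F.v₀ F.u₀ F.v₁ F.s F.c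
    (fun w => xf (2 ^ J) (F.u₀ w) (F.v₀ w) (F.s w) (F.c w) (F.v₁ w)) := by
  refine ⟨⟨by positivity, F.hq, F.h1, F.hv₀, F.hu₀, F.hs⟩, F.hv₁, ?_⟩
  intro w _ k
  exact (chd_floor _).trans one_le_two

/-- The point `O` seen from the line 2. -/
lemma chd_ptO₂ (F : Cf d J) : Pt (2 ^ J) F.q F.Z F.v₂ F.u₂ F.v₁ F.s F.c
    (fun w => xf (2 ^ J) (F.u₀ w) (F.v₀ w) (F.s w) (F.c w) (F.v₁ w)) := by
  refine ⟨⟨by positivity, F.hq, F.h1, F.hv₂, F.hu₂, F.hs⟩, F.hv₁, ?_⟩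
  intro w hw k
  have h1 := rd_close (F.cross02 w hw) k
  have h2 := chd_floor (pos (2 ^ J) (F.u₀ w) (F.v₀ w) (F.s w) k +
    (F.c w : ℝ) / ((2 ^ J : ℕ) : ℝ) * F.v₁ w k)
  have e1 : xf (2 ^ J) (F.u₀ w) (F.v₀ w) (F.s w) (F.c w) (F.v₁ w) k =
    ⌊pos (2 ^ J) (F.u₀ w) (F.v₀ w) (F.s w) k +
      (F.c w : ℝ) / ((2 ^ J : ℕ) : ℝ) * F.v₁ w k⌋ := rfl
  rw [e1]
  have t1 := abs_le.mp h1
  have t2 := abs_le.mp h2
  rw [abs_le]
  constructor <;> linarith [t1.1, t1.2, t2.1, t2.2]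

/-- The point `Y` seen from the line 2. -/
lemma chd_ptY (F : Cf d J) : Pt (2 ^ J) F.q F.Z F.v₂ F.u₂ F.v₁ F.tr F.c₂
    (fun w => xf (2 ^ J) (F.u₂ w) (F.v₂ w) (F.tr w) (F.c₂ w) (F.v₁ w)) := by
  refine ⟨⟨by positivity, F.hq, F.h1, F.hv₂, F.hu₂, F.htr⟩, F.hv₁, ?_⟩
  intro w _ k
  exact (chd_floor _).trans one_le_two

theorem chd (hT : TMSStmt) (hK : KPSStmt) (hC : CGPStmt) : CHDStmt := by
  intro d
  obtain ⟨C₀, hcho⟩ := Pool.Agent.H24.KTH.cho Pool.Agent.H24.KTH.vec d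
  obtain ⟨CT, hCT0, hCT⟩ := (hT d).2
  obtain ⟨CK, hCK0, hCK⟩ := hK d
  obtain ⟨CC, hCC0, hCC⟩ := hC d
  have her : ∀ (J : ℕ) (F : Cf d J) (L sb e : ℝ), F.Ok L sb e → 1 ≤ er J e := by
    intro J F L sb e h
    have h1 := h.e0
    have h2 : 0 ≤ Real.log ((J : ℝ) + 2) := Real.log_nonneg (by
      have : (0 : ℝ) ≤ J := Nat.cast_nonneg J
      linarith)
    unfold er
    linarith
  have hlog1 : ∀ x : ℝ, 0 ≤ Real.log (1 + |x|) := fun x =>
    Real.log_nonneg (by linarith [abs_nonneg x])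
  have hlog2 : ∀ x : ℝ, 0 ≤ Real.log (1 + |x|⁻¹) := fun x =>
    Real.log_nonneg (by linarith [inv_nonneg.mpr (abs_nonneg x)])
  constructor
  · refine ⟨|C₀| * (2 * CT + CK + 3), by positivity, ?_⟩
    intro J F L sb e hok
    have hq := F.hq
    have h1 := F.h1
    have hE := her J F L sb e hok
    have main := hcho F.Ω F.ζ (2 ^ J) F.q F.Z F.v₀ F.u₀ F.v₁ F.t F.s F.t₁
      (fun w => F.r w - F.t w) F.c (fun w => rd (pos (2 ^ J) (F.u₁ w) (F.v₁ w) (F.r w)))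
      (fun w => xf (2 ^ J) (F.u₀ w) (F.v₀ w) (F.s w) (F.c w) (F.v₁ w))
      (chd_ptB F) (chd_ptO F) F.ht₁ (by
        intro w
        show ct (F.t w) (F.s w) (F.t₁ w) (F.r w) = _
        unfold ct
        push_cast
        rfl)
    have step1 : CH F.q F.O (fun w => ((F.A w, F.B w), F.TO w, F.Z w)) ≤
        CH F.q (fun w => xf (2 ^ J) (F.u₀ w) (F.v₀ w) (F.s w) (F.c w) (F.v₁ w))
          (fun w => ((F.A w, F.B w), F.TO w, F.Z w)) := by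
      refine CH_mono_left hq ?_
      intro w w' _ _ h
      simp only [Prod.mk.injEq] at h
      obtain ⟨h3, _, h4, _⟩ := h
      exact Prod.ext h4 h3
    have step2 : CH F.q (fun w => xf (2 ^ J) (F.u₀ w) (F.v₀ w) (F.s w) (F.c w) (F.v₁ w))
          (fun w => ((F.A w, F.B w), F.TO w, F.Z w)) ≤
        CH F.q (fun w => xf (2 ^ J) (F.u₀ w) (F.v₀ w) (F.s w) (F.c w) (F.v₁ w))
          (fun ω => ((F.t₁ ω, rd (pos (2 ^ J) (F.u₀ ω) (F.v₀ ω) (F.t₁ ω))),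
            (F.t ω + (F.r ω - F.t ω), rd (pos (2 ^ J) (F.u₁ ω) (F.v₁ ω) (F.r ω))),
            F.s ω + F.c ω)) := by
      refine CH_mono_cond hq ?_
      intro w w' _ _ h
      simp only [Prod.mk.injEq] at h
      obtain ⟨⟨hA, hB⟩, hTO, _⟩ := h
      have hA1 : F.t₁ w = F.t₁ w' := (Prod.ext_iff.mp hA).1
      have hA2 : rd (pos (2 ^ J) (F.u₀ w) (F.v₀ w) (F.t₁ w)) =
        rd (pos (2 ^ J) (F.u₀ w') (F.v₀ w') (F.t₁ w')) := (Prod.ext_iff.mp hA).2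
      have hB1 : F.r w = F.r w' := (Prod.ext_iff.mp hB).1
      have hB2 : rd (pos (2 ^ J) (F.u₁ w) (F.v₁ w) (F.r w)) =
        rd (pos (2 ^ J) (F.u₁ w') (F.v₁ w') (F.r w')) := (Prod.ext_iff.mp hB).2
      have hTO' : F.s w + F.c w = F.s w' + F.c w' := hTO
      refine Prod.ext (Prod.ext hA1 hA2) (Prod.ext (Prod.ext ?_ hB2) hTO')
      simp only
      rw [add_sub_cancel, add_sub_cancel, hB1]
    have hg1 : Ex F.q (fun ω => sz (2 ^ J) (((F.r ω - F.t ω : ℤ) : ℝ))) ≤ 1 + F.eg F.r F.t := by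
      calc Ex F.q (fun ω => sz (2 ^ J) (((F.r ω - F.t ω : ℤ) : ℝ))) ≤
          Ex F.q (fun ω => 1 + gp J (F.r ω) (F.t ω)) := Ex_mono hq fun w hw =>
            chd_sz_gap (F.hr w hw) (F.ht w hw) (by push_cast; ring)
        _ = 1 + F.eg F.r F.t := by rw [Ex_add, Ex_const h1]; rfl
    have hg2 : Ex F.q (fun ω => sz (2 ^ J) ((F.t ω : ℝ) + ((F.r ω - F.t ω : ℤ) : ℝ) - F.t₁ ω)) ≤
        1 + F.eg F.r F.t₁ := by
      calc Ex F.q (fun ω => sz (2 ^ J) ((F.t ω : ℝ) + ((F.r ω - F.t ω : ℤ) : ℝ) - F.t₁ ω)) ≤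
          Ex F.q (fun ω => 1 + gp J (F.r ω) (F.t₁ ω)) := Ex_mono hq fun w hw =>
            chd_sz_gap (F.hr w hw) (F.ht₁ w hw) (by push_cast; ring)
        _ = 1 + F.eg F.r F.t₁ := by rw [Ex_add, Ex_const h1]; rfl
    have hT1 := hCT J F L sb e hok
    have hK1 := hCK J F L sb e hok
    simp only at hT1 hK1
    have p1 := chd_eg_nonneg F F.t F.s
    have p2 := chd_eg_nonneg F F.t₁ F.t
    have p3 := chd_eg_nonneg F F.t₁ F.s
    have p4 := chd_eg_nonneg F F.r F.t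
    have p5 := chd_eg_nonneg F F.r F.s
    have p6 := chd_eg_nonneg F F.r F.t₁
    have p7 := chd_eg_nonneg F F.tr F.s
    have p8 := chd_eg_nonneg F F.ta F.s
    have p9 := chd_eg_nonneg F F.ta F.tr
    have p10 := chd_eg_nonneg F F.ta F.TO
    have k1 : 0 ≤ Ex F.q (fun w => Real.log (1 + |F.k₁ w|)) :=
      Ex_nonneg hq fun w _ => hlog1 _
    have k2 : 0 ≤ Ex F.q (fun w => Real.log (1 + |F.k₁ w|⁻¹)) :=
      Ex_nonneg hq fun w _ => hlog2 _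
    have k3 : 0 ≤ Ex F.q (fun w => Real.log (1 + |F.k₂ w|)) :=
      Ex_nonneg hq fun w _ => hlog1 _
    have k4 : 0 ≤ Ex F.q (fun w => Real.log (1 + |F.k₂ w|⁻¹)) :=
      Ex_nonneg hq fun w _ => hlog2 _
    have s1 : 0 ≤ Ex F.q (fun ω => sz (2 ^ J) (((F.r ω - F.t ω : ℤ) : ℝ))) :=
      Ex_nonneg hq fun w _ => chd_sz_nonneg _ _
    have s2 : 0 ≤ Ex F.q (fun ω =>
        sz (2 ^ J) ((F.t ω : ℝ) + ((F.r ω - F.t ω : ℤ) : ℝ) - F.t₁ ω)) :=
      Ex_nonneg hq fun w _ => chd_sz_nonneg _ _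
    have kk : Ex F.q (fun ω => Real.log (1 + |kap (F.t ω) (F.s ω) (F.t₁ ω)|)) =
      Ex F.q (fun w => Real.log (1 + |F.k₁ w|)) := rfl
    rw [kk] at main
    have fin : CH F.q F.O (fun w => ((F.A w, F.B w), F.TO w, F.Z w)) ≤
        C₀ * (Ex F.q (fun ω => sz (2 ^ J) (((F.r ω - F.t ω : ℤ) : ℝ))) +
          Ex F.q (fun ω => sz (2 ^ J) ((F.t ω : ℝ) + ((F.r ω - F.t ω : ℤ) : ℝ) - F.t₁ ω)) +
          Ex F.q (fun w => Real.log (1 + |F.k₁ w|)) + 1) := (step1.trans step2).trans main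
    refine fin.trans ?_
    refine (mul_le_mul_of_nonneg_right (le_abs_self C₀) (by linarith)).trans ?_
    rw [mul_assoc]
    refine mul_le_mul_of_nonneg_left ?_ (abs_nonneg _)
    nlinarith
  · refine ⟨|C₀| * (CT + CK + 2 * CC + 2), by positivity, ?_⟩
    intro J F L sb e hok
    have hq := F.hq
    have h1 := F.h1
    have hE := her J F L sb e hok
    have main := hcho F.Ω F.ζ (2 ^ J) F.q F.Z F.v₂ F.u₂ F.v₁ F.s F.tr F.ta
      F.c F.c₂ (fun w => xf (2 ^ J) (F.u₀ w) (F.v₀ w) (F.s w) (F.c w) (F.v₁ w))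
      (fun w => xf (2 ^ J) (F.u₂ w) (F.v₂ w) (F.tr w) (F.c₂ w) (F.v₁ w))
      (chd_ptO₂ F) (chd_ptY F) F.hta (by
        intro w
        rfl)
    have step1 : CH F.q F.Y (fun w => ((F.A₂ w, F.O w), F.TY w, F.Z w)) ≤
        CH F.q (fun w => xf (2 ^ J) (F.u₂ w) (F.v₂ w) (F.tr w) (F.c₂ w) (F.v₁ w))
          (fun w => ((F.A₂ w, F.O w), F.TY w, F.Z w)) := by
      refine CH_mono_left hq ?_
      intro w w' _ _ h
      simp only [Prod.mk.injEq] at h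
      obtain ⟨h3, _, h4, _⟩ := h
      exact Prod.ext h4 h3
    have step2 : CH F.q (fun w => xf (2 ^ J) (F.u₂ w) (F.v₂ w) (F.tr w) (F.c₂ w) (F.v₁ w))
          (fun w => ((F.A₂ w, F.O w), F.TY w, F.Z w)) ≤
        CH F.q (fun w => xf (2 ^ J) (F.u₂ w) (F.v₂ w) (F.tr w) (F.c₂ w) (F.v₁ w))
          (fun ω => ((F.ta ω, rd (pos (2 ^ J) (F.u₂ ω) (F.v₂ ω) (F.ta ω))),
            (F.s ω + F.c ω, xf (2 ^ J) (F.u₀ ω) (F.v₀ ω) (F.s ω) (F.c ω) (F.v₁ ω)),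
            F.tr ω + F.c₂ ω)) := by
      refine CH_mono_cond hq ?_
      intro w w' _ _ h
      simp only [Prod.mk.injEq] at h
      obtain ⟨⟨hA, hO⟩, hTY, _⟩ := h
      exact Prod.ext hA (Prod.ext hO hTY)
    have hg1 : Ex F.q (fun ω => sz (2 ^ J) ((F.c ω : ℤ) : ℝ)) ≤ F.big F.c + F.sml F.c := by
      calc Ex F.q (fun ω => sz (2 ^ J) ((F.c ω : ℤ) : ℝ)) =
          Ex F.q (fun ω => Real.log (1 + |(F.c ω : ℝ)| / 2 ^ J) +
            Real.log (1 + 2 ^ J / max 1 |(F.c ω : ℝ)|)) := by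
            congr 1
            funext w
            exact chd_sz_eq J _
        _ = F.big F.c + F.sml F.c := by rw [Ex_add]; rfl
        _ ≤ _ := le_refl _
    have hg2 : Ex F.q (fun ω => sz (2 ^ J) ((F.s ω : ℝ) + (F.c ω : ℝ) - F.ta ω)) ≤
        1 + F.big F.c + F.eg F.ta F.TO := by
      calc Ex F.q (fun ω => sz (2 ^ J) ((F.s ω : ℝ) + (F.c ω : ℝ) - F.ta ω)) ≤
          Ex F.q (fun ω => 1 + Real.log (1 + |(F.c ω : ℝ)| / 2 ^ J) +
            gp J (F.ta ω) (F.TO ω)) := Ex_mono hq fun w hw => by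
              refine (chd_sz_add (F.hs w hw) (F.hta w hw) rfl).trans ?_
              have e1 : |(F.s w : ℝ) + (F.c w : ℝ) - F.ta w| = |(F.ta w : ℝ) - F.TO w| := by
                rw [abs_sub_comm]
                unfold Cf.TO
                push_cast
                rfl
              rw [e1]
              exact le_refl _
        _ = 1 + F.big F.c + F.eg F.ta F.TO := by rw [Ex_add, Ex_add, Ex_const h1]; rfl
    have hT1 := hCT J F L sb e hok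
    have hK1 := hCK J F L sb e hok
    have hC1 := hCC J F L sb e hok
    simp only at hT1 hK1 hC1
    have p1 := chd_eg_nonneg F F.t F.s
    have p2 := chd_eg_nonneg F F.t₁ F.t
    have p3 := chd_eg_nonneg F F.t₁ F.s
    have p4 := chd_eg_nonneg F F.r F.t
    have p5 := chd_eg_nonneg F F.r F.s
    have p6 := chd_eg_nonneg F F.r F.t₁
    have p7 := chd_eg_nonneg F F.tr F.s
    have p8 := chd_eg_nonneg F F.ta F.s
    have p9 := chd_eg_nonneg F F.ta F.tr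
    have p10 := chd_eg_nonneg F F.ta F.TO
    have k1 : 0 ≤ Ex F.q (fun w => Real.log (1 + |F.k₁ w|)) :=
      Ex_nonneg hq fun w _ => hlog1 _
    have k2 : 0 ≤ Ex F.q (fun w => Real.log (1 + |F.k₁ w|⁻¹)) :=
      Ex_nonneg hq fun w _ => hlog2 _
    have k3 : 0 ≤ Ex F.q (fun w => Real.log (1 + |F.k₂ w|)) :=
      Ex_nonneg hq fun w _ => hlog1 _
    have k4 : 0 ≤ Ex F.q (fun w => Real.log (1 + |F.k₂ w|⁻¹)) :=
      Ex_nonneg hq fun w _ => hlog2 _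
    have c1 : ∀ x : F.Ω → ℤ, 0 ≤ F.big x := fun x => Ex_nonneg hq fun w _ => Real.log_nonneg (by
      have : 0 ≤ |(x w : ℝ)| / 2 ^ J := by positivity
      linarith)
    have c2 : ∀ x : F.Ω → ℤ, 0 ≤ F.sml x := fun x => Ex_nonneg hq fun w _ => Real.log_nonneg (by
      have : 0 ≤ 2 ^ J / max 1 |(x w : ℝ)| := by positivity
      linarith)
    have q1 := c1 F.c
    have q2 := c2 F.c
    have q3 := c1 F.c₂
    have q4 := c2 F.c₂
    have s1 : 0 ≤ Ex F.q (fun ω => sz (2 ^ J) ((F.c ω : ℤ) : ℝ)) :=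
      Ex_nonneg hq fun w _ => chd_sz_nonneg _ _
    have s2 : 0 ≤ Ex F.q (fun ω => sz (2 ^ J) ((F.s ω : ℝ) + (F.c ω : ℝ) - F.ta ω)) :=
      Ex_nonneg hq fun w _ => chd_sz_nonneg _ _
    have kk : Ex F.q (fun ω => Real.log (1 + |kap (F.s ω) (F.tr ω) (F.ta ω)|)) =
      Ex F.q (fun w => Real.log (1 + |F.k₂ w|)) := rfl
    rw [kk] at main
    have fin : CH F.q F.Y (fun w => ((F.A₂ w, F.O w), F.TY w, F.Z w)) ≤
        C₀ * (Ex F.q (fun ω => sz (2 ^ J) ((F.c ω : ℤ) : ℝ)) +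
          Ex F.q (fun ω => sz (2 ^ J) ((F.s ω : ℝ) + (F.c ω : ℝ) - F.ta ω)) +
          Ex F.q (fun w => Real.log (1 + |F.k₂ w|)) + 1) := (step1.trans step2).trans main
    refine fin.trans ?_
    refine (mul_le_mul_of_nonneg_right (le_abs_self C₀) (by linarith)).trans ?_
    rw [mul_assoc]
    refine mul_le_mul_of_nonneg_left ?_ (abs_nonneg _)
    nlinarith

end Pool.KTH
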