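import Pool.Agent.H24.KTH.Geo

/-!
# KTH, row CHO: a chord
-/

set_option autoImplicit false

namespace Pool.Agent.H24.KTH

open Finset Real
open Pool.Agent.H49.Ent Pool.Agent.H32.Dense

/-- One coordinate: the point on the chord. -/
lemma cho_coord {κ δ wk vk pt pa pb f A XB X c c' M : ℝ} (hM : 0 < M) (hw : |wk| ≤ M)
    (hv : |vk| ≤ M) (hδ : |δ| ≤ 2) (hA : |A - pt| ≤ 1) (hB : |XB - (pa + c / M * vk)| ≤ 2)
    (hX : |X - (pb + c' / M * vk)| ≤ 2) (hpb : pb = (1 - κ) * (pt + δ / M * wk) + κ * pa)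
    (hc : c' = κ * c - f) (hf : |f| ≤ 1) :
    |X - ((1 - κ) * A + κ * XB)| ≤ 6 * (1 + |κ|) := by
  have e1 : X - ((1 - κ) * A + κ * XB) = (X - (pb + c' / M * vk)) + (1 - κ) * (pt - A) +
      (1 - κ) * (δ / M * wk) - κ * (XB - (pa + c / M * vk)) - f / M * vk := by
    rw [hpb, hc]
    ring
  have hk0 : 0 ≤ |κ| := abs_nonneg _
  have hk1 : |1 - κ| ≤ 1 + |κ| := by
    calc |1 - κ| ≤ |(1 : ℝ)| + |κ| := abs_sub _ _
      _ = 1 + |κ| := by rw [abs_one]
  have g1 : |(1 - κ) * (pt - A)| ≤ 1 + |κ| := by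
    rw [abs_mul, abs_sub_comm pt A]
    calc |1 - κ| * |A - pt| ≤ (1 + |κ|) * 1 := by gcongr
      _ = 1 + |κ| := mul_one _
  have g2 : |δ / M * wk| ≤ 2 := by
    rw [abs_mul, abs_div, abs_of_pos hM, div_mul_eq_mul_div, div_le_iff₀ hM]
    gcongr
  have g3 : |(1 - κ) * (δ / M * wk)| ≤ (1 + |κ|) * 2 := by
    rw [abs_mul]
    gcongr
  have g4 : |κ * (XB - (pa + c / M * vk))| ≤ |κ| * 2 := by
    rw [abs_mul]
    gcongr
  have g5 : |f / M * vk| ≤ 1 := by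
    rw [abs_mul, abs_div, abs_of_pos hM, div_mul_eq_mul_div, div_le_iff₀ hM]
    gcongr
  rw [e1]
  have t1 := abs_le.mp hX
  have t2 := abs_le.mp g1
  have t3 := abs_le.mp g3
  have t4 := abs_le.mp g4
  have t5 := abs_le.mp g5
  rw [abs_le]
  constructor <;> linarith [t1.1, t1.2, t2.1, t2.2, t3.1, t3.2, t4.1, t4.2, t5.1, t5.2]

/-- One coordinate: the length of the chord. -/
lemma cho_len {wk vk pt pa A XB c M e : ℝ} (hM : 1 ≤ M) (hw : |wk| ≤ M)
    (hv : |vk| ≤ M) (hA : |A - pt| ≤ 1) (hB : |XB - (pa + c / M * vk)| ≤ 2)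
    (hpa : pa - pt = e / M * wk) (he : |e| ≤ M) : |XB - A| ≤ 4 * M + |c| := by
  have hM0 : 0 < M := by linarith
  have e1 : XB - A = (XB - (pa + c / M * vk)) + e / M * wk + c / M * vk - (A - pt) := by
    rw [← hpa]
    ring
  have g2 : |e / M * wk| ≤ M := by
    rw [abs_mul, abs_div, abs_of_pos hM0, div_mul_eq_mul_div, div_le_iff₀ hM0]
    gcongr
  have g3 : |c / M * vk| ≤ |c| := by
    rw [abs_mul, abs_div, abs_of_pos hM0, div_mul_eq_mul_div, div_le_iff₀ hM0]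
    gcongr
  rw [e1]
  have t1 := abs_le.mp hB
  have t2 := abs_le.mp g2
  have t3 := abs_le.mp g3
  have t4 := abs_le.mp hA
  rw [abs_le]
  constructor <;> linarith [t1.1, t1.2, t2.1, t2.2, t3.1, t3.2, t4.1, t4.2]

/-- The two ratios are close. -/
lemma cho_ratio {κ δ f N : ℝ} {D : ℤ} (hδ : |δ| ≤ 2) (hf : |f| ≤ 1)
    (hN : N = κ * (D : ℝ) + (1 - κ) * δ - f) :
    |N / (D : ℝ) - κ| ≤ 3 * (1 + |κ|) / max |(D : ℝ)| 1 := by
  have hk0 : 0 ≤ |κ| := abs_nonneg _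
  have hk1 : |1 - κ| ≤ 1 + |κ| := by
    calc |1 - κ| ≤ |(1 : ℝ)| + |κ| := abs_sub _ _
      _ = 1 + |κ| := by rw [abs_one]
  rcases eq_or_ne D 0 with h0 | h0
  · subst h0
    simp only [Int.cast_zero, div_zero, zero_sub, abs_neg, abs_zero]
    have : max (0 : ℝ) 1 = 1 := max_eq_right zero_le_one
    rw [this, div_one]
    linarith
  · have h2 : (1 : ℝ) ≤ |(D : ℝ)| := by
      have : (1 : ℤ) ≤ |D| := Int.one_le_abs h0
      exact_mod_cast this
    have h3 : (D : ℝ) ≠ 0 := by exact_mod_cast h0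
    rw [max_eq_left h2]
    have e1 : N / (D : ℝ) - κ = ((1 - κ) * δ - f) / D := by
      rw [hN]
      field_simp
      ring
    rw [e1, abs_div]
    have g1 : |(1 - κ) * δ| ≤ (1 + |κ|) * 2 := by
      rw [abs_mul]
      gcongr
    have g2 : |(1 - κ) * δ - f| ≤ 3 * (1 + |κ|) := by
      calc |(1 - κ) * δ - f| ≤ |(1 - κ) * δ| + |f| := abs_sub _ _
        _ ≤ 3 * (1 + |κ|) := by linarith
    gcongr

/-- The final estimate of the logarithm. -/
lemma cho_log {M : ℕ} (hM : 0 < M) (κ c D : ℝ) :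
    Real.log (1 + (6 * (1 + |κ|) + 3 * (1 + |κ|) / max |D| 1 * (4 * M + |c|))) ≤
      3 + Real.log (1 + |κ|) + sz M c + sz M D := by
  have hM0 : (0 : ℝ) < M := by exact_mod_cast hM
  have hk0 : 0 ≤ |κ| := abs_nonneg _
  have hc0 : 0 ≤ |c| / M := by positivity
  have hmx : (0 : ℝ) < max |D| 1 := lt_of_lt_of_le one_pos (le_max_right _ _)
  have hD0 : 0 ≤ (M : ℝ) / max |D| 1 := by positivity
  have e1 : 1 + (6 * (1 + |κ|) + 3 * (1 + |κ|) / max |D| 1 * (4 * M + |c|)) ≤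
      12 * (1 + |κ|) * (1 + |c| / M) * (1 + M / max |D| 1) := by
    have e2 : 3 * (1 + |κ|) / max |D| 1 * (4 * M + |c|) =
        3 * (1 + |κ|) * (4 + |c| / M) * (M / max |D| 1) := by
      field_simp
    rw [e2]
    set x := |c| / M with hx
    set y := (M : ℝ) / max |D| 1 with hy
    set k := |κ| with hk
    have p1 : 0 ≤ k * x := mul_nonneg hk0 hc0
    have p2 : 0 ≤ (1 + k) * x := by positivity
    have p3 : 0 ≤ (1 + k) * x * y := by positivity
    nlinarith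
  have hs1 : 0 ≤ Real.log (1 + M / max |c| 1) := Real.log_nonneg (by
    have : 0 ≤ (M : ℝ) / max |c| 1 := by positivity
    linarith)
  have hs2 : 0 ≤ Real.log (1 + |D| / M) := Real.log_nonneg (by
    have : 0 ≤ |D| / (M : ℝ) := by positivity
    linarith)
  calc Real.log (1 + (6 * (1 + |κ|) + 3 * (1 + |κ|) / max |D| 1 * (4 * M + |c|)))
      ≤ Real.log (12 * (1 + |κ|) * (1 + |c| / M) * (1 + M / max |D| 1)) := by
        apply Real.log_le_log _ e1
        positivity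
    _ = Real.log 12 + Real.log (1 + |κ|) + Real.log (1 + |c| / M) +
        Real.log (1 + M / max |D| 1) := by
        rw [Real.log_mul (by positivity) (by positivity),
          Real.log_mul (by positivity) (by positivity),
          Real.log_mul (by positivity) (by positivity)]
    _ ≤ 3 + Real.log (1 + |κ|) + sz M c + sz M D := by
        have : Real.log 12 ≤ (3 : ℕ) := log_le_of_pow (by norm_num) (by norm_num)
        push_cast at this
        unfold sz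
        linarith

theorem cho : CHOStmt := by
  intro hvec d
  refine ⟨16 * d, ?_⟩
  intro Ω _ ζ M q Z w uw v a b τ c c' XB X hB hX hτ hc'
  have hq := hB.fam.hp
  have h1 := hB.fam.h1
  have hM := hB.fam.hM
  have hM1 : (1 : ℝ) ≤ M := by exact_mod_cast hM
  have hM0 : (0 : ℝ) < M := by linarith
  set F : Ω → Fin d → ℝ := fun ω k =>
    (rd (pos M (uw ω) (w ω) (τ ω)) k : ℝ) +
      ((((b ω + c' ω : ℤ) : ℝ) - τ ω) / (((a ω + c ω : ℤ) : ℝ) - τ ω)) *
        ((XB ω k : ℝ) - rd (pos M (uw ω) (w ω) (τ ω)) k) with hF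
  set L : Ω → ℝ := fun ω => 6 * (1 + |kap (a ω) (b ω) (τ ω)|) +
    3 * (1 + |kap (a ω) (b ω) (τ ω)|) / max |(a ω : ℝ) + c ω - τ ω| 1 * (4 * M + |(c ω : ℝ)|)
    with hL
  have hdet : Det q (fun ω => ((τ ω, rd (pos M (uw ω) (w ω) (τ ω))), (a ω + c ω, XB ω),
      b ω + c' ω)) F := by
    intro ω ω' _ _ e
    simp only [Prod.mk.injEq] at e
    obtain ⟨⟨e1, e2⟩, ⟨e3, e4⟩, e5⟩ := e
    funext k
    simp only [hF]
    rw [e2, e3, e4, e5, e1]
  have hdist : ∀ ω, 0 < q ω → ∀ k, |(X ω k : ℝ) - F ω k| ≤ L ω := by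
    intro ω hω k
    obtain ⟨ha0, haM⟩ := hB.fam.hτ ω hω
    obtain ⟨ht0, htM⟩ := hτ ω hω
    have hwk : |(w ω k : ℝ)| ≤ M := by exact_mod_cast hB.fam.hv ω hω k
    have hvk : |(v ω k : ℝ)| ≤ M := by exact_mod_cast hB.hv ω hω k
    have hfl := hc' ω
    set κ := kap (a ω) (b ω) (τ ω) with hκ
    have f1 : (c' ω : ℝ) ≤ κ * (c ω : ℝ) := by
      rw [hfl]
      exact Int.floor_le _
    have f2 : κ * (c ω : ℝ) < (c' ω : ℝ) + 1 := by
      rw [hfl]
      exact Int.lt_floor_add_one _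
    have hf : |κ * (c ω : ℝ) - c' ω| ≤ 1 := abs_le.mpr ⟨by linarith, by linarith⟩
    obtain ⟨s1, s2, s3, s4⟩ := hat_spec (a ω) (b ω) (τ ω)
    have s3' : (τ ω : ℝ) ≤ hat (a ω) (b ω) (τ ω) := by exact_mod_cast s3
    have s4' : (hat (a ω) (b ω) (τ ω) : ℝ) ≤ τ ω + 2 := by exact_mod_cast s4
    have hδ : |(hat (a ω) (b ω) (τ ω) : ℝ) - τ ω| ≤ 2 := abs_le.mpr ⟨by linarith, by linarith⟩
    have hA : |(rd (pos M (uw ω) (w ω) (τ ω)) k : ℝ) - pos M (uw ω) (w ω) (τ ω) k| ≤ 1 := by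
      have r1 := Int.floor_le (pos M (uw ω) (w ω) (τ ω) k)
      have r2 := Int.lt_floor_add_one (pos M (uw ω) (w ω) (τ ω) k)
      have r3 : rd (pos M (uw ω) (w ω) (τ ω)) k = ⌊pos M (uw ω) (w ω) (τ ω) k⌋ := rfl
      rw [r3]
      exact abs_le.mpr ⟨by linarith, by linarith⟩
    have k1 := cho_coord (κ := κ) (f := κ * (c ω : ℝ) - c' ω) hM0 hwk hvk hδ hA
      (hB.hX ω hω k) (hX.hX ω hω k) (pos_lin M (uw ω) (w ω) (a ω) (b ω) (τ ω) k) (by ring) hf
    have haR : (0 : ℝ) ≤ a ω := by exact_mod_cast ha0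
    have haM' : (a ω : ℝ) < M := by exact_mod_cast haM
    have htR : (0 : ℝ) ≤ τ ω := by exact_mod_cast ht0
    have htM' : (τ ω : ℝ) < M := by exact_mod_cast htM
    have k2 := cho_len (e := (a ω : ℝ) - τ ω) hM1 hwk hvk hA (hB.hX ω hω k)
      (by unfold pos; ring) (abs_le.mpr ⟨by linarith, by linarith⟩)
    have e3 : κ * ((hat (a ω) (b ω) (τ ω) : ℝ) - a ω) = (hat (a ω) (b ω) (τ ω) : ℝ) - b ω := by
      have e2 : (hat (a ω) (b ω) (τ ω) : ℝ) - a ω ≠ 0 := sub_ne_zero.mpr (by exact_mod_cast s1)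
      rw [hκ]
      unfold kap
      field_simp
    have k3 := cho_ratio (κ := κ) (f := κ * (c ω : ℝ) - c' ω)
      (N := ((b ω + c' ω : ℤ) : ℝ) - τ ω) (D := a ω + c ω - τ ω) hδ hf (by
        push_cast
        linear_combination e3)
    have ed : ((a ω + c ω - τ ω : ℤ) : ℝ) = ((a ω + c ω : ℤ) : ℝ) - τ ω := by push_cast; ring
    have ed2 : ((a ω + c ω - τ ω : ℤ) : ℝ) = (a ω : ℝ) + c ω - τ ω := by push_cast; ring
    rw [ed] at k3
    have ed3 : ((a ω + c ω : ℤ) : ℝ) - τ ω = (a ω : ℝ) + c ω - τ ω := by push_cast; ring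
    set κ' := (((b ω + c' ω : ℤ) : ℝ) - τ ω) / (((a ω + c ω : ℤ) : ℝ) - τ ω) with hκ'
    rw [ed3] at k3
    have split : (X ω k : ℝ) - F ω k =
        ((X ω k : ℝ) - ((1 - κ) * rd (pos M (uw ω) (w ω) (τ ω)) k + κ * XB ω k)) -
          (κ' - κ) * ((XB ω k : ℝ) - rd (pos M (uw ω) (w ω) (τ ω)) k) := by
      simp only [hF]
      rw [← hκ']
      ring
    rw [split]
    calc |((X ω k : ℝ) - ((1 - κ) * rd (pos M (uw ω) (w ω) (τ ω)) k + κ * XB ω k)) -
          (κ' - κ) * ((XB ω k : ℝ) - rd (pos M (uw ω) (w ω) (τ ω)) k)| ≤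
        |(X ω k : ℝ) - ((1 - κ) * rd (pos M (uw ω) (w ω) (τ ω)) k + κ * XB ω k)| +
          |(κ' - κ) * ((XB ω k : ℝ) - rd (pos M (uw ω) (w ω) (τ ω)) k)| := abs_sub _ _
      _ ≤ 6 * (1 + |κ|) + 3 * (1 + |κ|) / max |(a ω : ℝ) + c ω - τ ω| 1 *
          (4 * M + |(c ω : ℝ)|) := by
        refine add_le_add k1 ?_
        rw [abs_mul]
        have : 0 ≤ 3 * (1 + |κ|) / max |(a ω : ℝ) + c ω - τ ω| 1 := by positivity
        exact mul_le_mul k3 k2 (abs_nonneg _) this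
      _ = L ω := rfl
  have main := hvec d Ω _ q _ X F L hq h1 hdet hdist
  have hd : (0 : ℝ) ≤ d := Nat.cast_nonneg d
  have hEx : Ex q (fun ω => Real.log (1 + L ω)) ≤
      3 + Ex q (fun ω => Real.log (1 + |kap (a ω) (b ω) (τ ω)|)) + Ex q (fun ω => sz M (c ω)) +
        Ex q (fun ω => sz M ((a ω : ℝ) + c ω - τ ω)) := by
    calc Ex q (fun ω => Real.log (1 + L ω)) ≤
        Ex q (fun ω => 3 + Real.log (1 + |kap (a ω) (b ω) (τ ω)|) + sz M (c ω) +
          sz M ((a ω : ℝ) + c ω - τ ω)) := Ex_mono hq fun ω _ =>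
            cho_log hM (kap (a ω) (b ω) (τ ω)) (c ω) ((a ω : ℝ) + c ω - τ ω)
      _ = _ := by rw [Ex_add, Ex_add, Ex_add, Ex_const h1]
  have n1 : 0 ≤ Ex q (fun ω => sz M (c ω)) := Ex_nonneg hq fun ω _ => by
    unfold sz
    have i1 : 0 ≤ |(c ω : ℝ)| / (M : ℝ) := by positivity
    have i2 : 0 ≤ (M : ℝ) / max |(c ω : ℝ)| 1 := by positivity
    exact add_nonneg (Real.log_nonneg (by linarith)) (Real.log_nonneg (by linarith))
  have n2 : 0 ≤ Ex q (fun ω => sz M ((a ω : ℝ) + c ω - τ ω)) := Ex_nonneg hq fun ω _ => by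
    unfold sz
    have i1 : 0 ≤ |(a ω : ℝ) + c ω - τ ω| / (M : ℝ) := by positivity
    have i2 : 0 ≤ (M : ℝ) / max |(a ω : ℝ) + c ω - τ ω| 1 := by positivity
    exact add_nonneg (Real.log_nonneg (by linarith)) (Real.log_nonneg (by linarith))
  have n3 : 0 ≤ Ex q (fun ω => Real.log (1 + |kap (a ω) (b ω) (τ ω)|)) :=
    Ex_nonneg hq fun ω _ => Real.log_nonneg (by linarith [abs_nonneg (kap (a ω) (b ω) (τ ω))])
  refine main.trans ?_
  rw [mul_comm (16 : ℝ) (d : ℝ), mul_assoc]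
  refine mul_le_mul_of_nonneg_left ?_ hd
  linarith

end Pool.Agent.H24.KTH
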